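import Mathlib

/-!
# Mixed intersection numbers of two nef classes (MP_5ee2d0_ag)

`L`, `M` are nef and `A` is ample on a projective manifold of dimension `N`, and `I a b` is the number
`L^a . M^b . A^(N - a - b)`.
-/

namespace Pool.Agent.H31.OP

/-- The numbers `I a b`, `a + b ≤ N`. `M` is less than or equal to `m L` (the difference is effective). -/
structure Mix (N : ℕ) (m : ℝ) where
  I : ℕ → ℕ → ℝ
  nonneg : ∀ a b, a + b ≤ N → 0 ≤ I a b
  /-- `L^a . M^b . A^c . (m L - M)` is not negative -/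
  comp : ∀ a b, a + b + 1 ≤ N → I a (b + 1) ≤ m * I (a + 1) b
  /-- The Hodge index theorem for the nef classes `L` and `M + ε A` -/
  hodge : ∀ a b, a + b + 2 ≤ N → ∀ ε : ℝ, 0 ≤ ε →
    I (a + 2) b * (I a (b + 2) + 2 * ε * I a (b + 1) + ε ^ 2 * I a b) ≤
      (I (a + 1) (b + 1) + ε * I (a + 1) b) ^ 2

namespace Mix

variable {N : ℕ} {m : ℝ} (X : Mix N m)

include X in
/-- If `M` is isotropic and orthogonal to `L` then `L` is isotropic. -/
theorem iso {a b : ℕ} (h : a + b + 2 ≤ N) (h1 : X.I a (b + 2) = 0) (h2 : X.I (a + 1) (b + 1) = 0)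
    (h3 : 0 < X.I a (b + 1)) : X.I (a + 2) b = 0 := by
  refine le_antisymm ?_ (X.nonneg _ _ (by omega))
  by_contra hc
  push Not at hc
  have h4 := X.nonneg a b (by omega)
  have h5 := X.nonneg (a + 1) b (by omega)
  -- `ε` small
  have key : ∀ ε : ℝ, 0 < ε → X.I (a + 2) b * (2 * X.I a (b + 1)) ≤ ε * X.I (a + 1) b ^ 2 := by
    intro ε hε
    have := X.hodge a b h ε hε.le
    rw [h1, h2] at this
    have h6 : ε * (X.I (a + 2) b * (2 * X.I a (b + 1))) ≤ ε * (ε * X.I (a + 1) b ^ 2) := by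
      have h7 : 0 ≤ X.I (a + 2) b * (ε ^ 2 * X.I a b) := by positivity
      nlinarith
    exact le_of_mul_le_mul_left h6 hε
  have hpos : 0 < X.I (a + 2) b * (2 * X.I a (b + 1)) := by positivity
  have h8 := key (X.I (a + 2) b * (2 * X.I a (b + 1)) / (2 * (X.I (a + 1) b ^ 2 + 1))) (by positivity)
  have h9 : X.I (a + 2) b * (2 * X.I a (b + 1)) / (2 * (X.I (a + 1) b ^ 2 + 1)) * X.I (a + 1) b ^ 2
      ≤ X.I (a + 2) b * (2 * X.I a (b + 1)) / 2 := by
    rw [div_mul_eq_mul_div, div_le_div_iff₀ (by positivity) (by norm_num)]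
    nlinarith [sq_nonneg (X.I (a + 1) b)]
  linarith

include X in
theorem comp_pow (hm : 0 ≤ m) (k : ℕ) : ∀ a b, a + b + k ≤ N → X.I a (b + k) ≤ m ^ k * X.I (a + k) b := by
  induction k with
  | zero => intro a b _; simp
  | succ k ih =>
    intro a b h
    have h1 := X.comp a (b + k) (by omega)
    have h2 := ih (a + 1) b (by omega)
    calc X.I a (b + (k + 1)) ≤ m * X.I (a + 1) (b + k) := h1
      _ ≤ m * (m ^ k * X.I (a + 1 + k) b) := mul_le_mul_of_nonneg_left h2 hm
      _ = m ^ (k + 1) * X.I (a + (k + 1)) b := by rw [show a + 1 + k = a + (k + 1) by ring]; ring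

include X in
/-- `L^2 . M^κ = 0` if the numerical dimension of `L` is at most `κ + 1`. -/
theorem two (hm : 0 ≤ m) {κ : ℕ} (h : κ + 2 ≤ N) (h1 : X.I (κ + 2) 0 = 0) : X.I 2 κ = 0 := by
  refine le_antisymm ?_ (X.nonneg _ _ (by omega))
  have := X.comp_pow hm κ 2 0 (by omega)
  rw [Nat.zero_add, show 2 + κ = κ + 2 by ring, h1, mul_zero] at this
  exact this

include X in
/-- `L . M^κ > 0` if the numerical dimension of `L` is at least `κ + 1` and the one of `M` is `κ`. -/
theorem one (hm : 0 ≤ m) {κ : ℕ} (h : κ + 1 ≤ N) (h0 : X.I 0 (κ + 1) = 0) (h1 : 0 < X.I 0 κ)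
    (h2 : 0 < X.I (κ + 1) 0) : 0 < X.I 1 κ := by
  refine lt_of_le_of_ne (X.nonneg _ _ (by omega)) fun hc => ?_
  have key : ∀ j, j ≤ κ → X.I (j + 1) (κ - j) = 0 ∧ X.I j (κ - j + 1) = 0 := by
    intro j
    induction j with
    | zero => intro _; simpa using ⟨hc.symm, h0⟩
    | succ j ih =>
      intro hj
      obtain ⟨h3, h4⟩ := ih (by omega)
      obtain ⟨c, hc'⟩ : ∃ c, κ - j = c + 1 := ⟨κ - j - 1, by omega⟩
      have hc'' : κ - (j + 1) = c := by omega
      rw [hc'] at h3 h4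
      have h5 : 0 < X.I j (c + 1) := by
        have h6 := X.comp_pow hm j 0 (c + 1) (by omega)
        rw [Nat.zero_add, show c + 1 + j = κ by omega] at h6
        by_contra h7
        push Not at h7
        have h8 : X.I j (c + 1) = 0 := le_antisymm h7 (X.nonneg _ _ (by omega))
        rw [h8, mul_zero] at h6
        linarith
      have h9 := X.iso (a := j) (b := c) (by omega) h4 h3 h5
      rw [hc'']
      exact ⟨h9, h3⟩
  have h10 := (key κ le_rfl).1
  rw [Nat.sub_self] at h10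
  linarith

end Mix

end Pool.Agent.H31.OP
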